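import Pool.Agent.Run7.h608.BC.BAN
import Pool.Agent.Run7.h600.BC.LEB
import Pool.Agent.Run7.h600.BC.FOU
import Pool.Agent.Run7.h270.BC.DEN
import Pool.Agent.Run7.h270.BC.LOC
import Pool.Agent.Run7.h514.BC.ARI
import Pool.Agent.Run7.h514.BC.PRD
import Pool.Agent.Run7.h544.BC.TAI
import Pool.Agent.Run7.h544.BC.SAN
import Pool.Agent.Run7.h220.BC.MUL
import Pool.Agent.Run7.h220.BC.ZER
import Pool.Agent.Run7.h220.BC.GRO
import Pool.Agent.Run7.h220.BC.IDE
import Pool.Agent.Run7.h688.BC.GEN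
import Pool.Agent.Run7.h688.BC.DIV
import Pool.Agent.Run7.h495.BC.SPL
import Pool.Agent.Run7.h834.BC.APX
import Pool.Agent.Run7.h950.BC.KER
import Pool.Agent.Run7.h540.BC.WAV

/-! # Project BC: assembly -/

set_option autoImplicit false

open MeasureTheory Filter Topology

namespace Run7.h608.BC

/-- **Q2**, all pieces put together. -/
theorem t_ALL (β : ℝ) (hβ : 1 < β) (hβ2 : β < 2) (hac : bernoulliConv β ≪ volume) :
    ∀ᵐ x ∂(volume : Measure ℝ), Tendsto (fun n => f β n x) atTop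
      (𝓝 ((bernoulliConv β).rnDeriv volume x).toReal) := by
  have LEB := Run7.h600.BC.t_LEB
  have FOU := Run7.h600.BC.t_FOU
  have DEN := Pool.Agent.Run7.h270.BCD.t_DEN
  have PRD := Run7.h514.BC.t_PRD Run7.h514.BC.t_ARI
  have TAI := Run7.h544.BC.t_TAI
  have KER := Run7.h950.BC.t_KER
  have APX := Run7.h834.BC.t_APX
  have SAN := Run7.h544.BC.t_SAN KER TAI
  have IDE := Run7.h220.BC.t_IDE
  have GRO := Run7.h220.BC.t_GRO IDE
  have ZER := Run7.h220.BC.t_ZER
  have MUL := Run7.h220.BC.t_MUL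
  have GEN := Run7.h688.BC.t_GEN
  have DIV := Run7.h688.BC.t_DIV
  have WAV := Pool.Agent.Run7.h540.BC.t_WAV
  have LOC := Pool.Agent.Run7.h270.BC.t_LOC GEN WAV TAI
  have SPL := Run7.h495.BC.t_SPL LOC
  have BAN := t_BAN FOU PRD ZER IDE APX GRO SPL DIV MUL
  exact final LEB DEN GRO SAN BAN β hβ hβ2 hac

end Run7.h608.BC
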