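import Pool.Agent.Run7.h608.BC.Iface

/-! Pieces BAN and the final assembly of project BC. -/

set_option autoImplicit false

open MeasureTheory Set Filter Topology
open scoped ENNReal ContDiff

namespace Run7.h608.BC

theorem t_BAN (hFOU : S_FOU) (hPRD : S_PRD) (hZER : S_ZER) (hIDE : S_IDE) (hAPX : S_APX)
    (hGRO : S_GRO) (hSPL : S_SPL) (hDIV : S_DIV) (hMUL : S_MUL) : S_BAN := by
  intro β h x hβ hβ2 hD hL g hg
  have hF := hFOU β h hβ hD
  obtain ⟨C, hG⟩ := hGRO β h x hβ hD hL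
  obtain ⟨B, hB⟩ : ∃ B : ℝ, ∀ ξ ∈ tsupport g, |ξ| ≤ B := by
    obtain ⟨B, hB⟩ := hg.2.isCompact.isBounded.exists_norm_le
    exact ⟨B, fun ξ hξ => hB ξ hξ⟩
  have hfin := hZER β (H h) hβ hF B
  rw [Metric.tendsto_atTop]
  intro δ hδ
  obtain ⟨g', hg', h0, hout, hz, N1, hN1⟩ := hSPL β x C hβ hG hfin.toFinset (by
    intro ξ hξ
    rw [Set.Finite.mem_toFinset] at hξ
    have hne : ξ ≠ 0 := by
      rintro rfl
      have := hξ.2
      rw [hF.zero] at this
      exact one_ne_zero this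
    exact ⟨hne, hPRD β (H h) hβ hβ2 hF ξ hne⟩) g hg (δ / 2) (by linarith)
  obtain ⟨G, hGt, hGe⟩ := hDIV (H h) g' hF.smooth hg' (by
    intro ξ hξ
    by_cases hb : |ξ| ≤ B
    · exact hz ξ ((Set.Finite.mem_toFinset hfin).2 ⟨hb, hξ⟩)
    · exact hout ξ fun hmem => hb (hB ξ hmem))
  obtain ⟨m1, m2, ⟨A, m3⟩, m4⟩ := hMUL β h hD G hGt
  have hA : ∀ t, ‖T G t‖ ≤ |A| := by
    intro t
    refine (m3 t).trans ?_
    have h1 : (1:ℝ) ≤ 1 + t ^ 2 := by nlinarith [sq_nonneg t]
    calc A / (1 + t ^ 2) ≤ |A| / (1 + t ^ 2) := by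
          gcongr
          exact le_abs_self A
      _ ≤ |A| := div_le_self (abs_nonneg A) h1
  have e1 : ∀ n, L β x n (T g') = ∫ z, ((β ^ n : ℝ) : ℂ) * T G (β ^ n * (x - z)) * (h z : ℂ) := by
    intro n
    rw [← hIDE β h hβ hD (T G) m2.measurable ⟨|A|, hA⟩ n x]
    congr 1
    funext t
    rw [← m1 t]
    congr 1
    funext ξ
    exact hGe ξ
  have e2 : Tendsto (fun n => L β x n (T g')) atTop (𝓝 ((h x : ℂ) * g 0)) := by
    have e3 := hAPX β h x hβ hD.int hL (T G) m2 ⟨A, m3⟩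
    have e4 : g 0 = G 0 := by
      rw [← h0, hGe 0, hF.zero, mul_one]
    rw [m4, ← e4] at e3
    refine e3.congr fun n => ?_
    rw [e1 n]
  rw [Metric.tendsto_atTop] at e2
  obtain ⟨N2, hN2⟩ := e2 (δ / 2) (by linarith)
  refine ⟨max N1 N2, fun n hn => ?_⟩
  have a1 := hN1 n ((le_max_left _ _).trans hn)
  have a2 := hN2 n ((le_max_right _ _).trans hn)
  calc dist (L β x n (T g)) ((h x : ℂ) * g 0)
      ≤ dist (L β x n (T g)) (L β x n (T g')) + dist (L β x n (T g')) ((h x : ℂ) * g 0) :=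
        dist_triangle _ _ _
    _ < δ / 2 + δ / 2 := by
        rw [dist_eq_norm (L β x n (T g))]
        exact add_lt_add_of_le_of_lt a1 a2
    _ = δ := by ring

/-- the approximating densities in terms of `LR` -/
theorem f_eq (β : ℝ) (n : ℕ) (x : ℝ) : f β n x = (β - 1) * LR β x n (ind 0 (1 / (β - 1))) := by
  induction n generalizing x with
  | zero =>
    unfold f LR ind
    rw [Function.iterate_zero, id]
    by_cases hx : x ∈ Icc (0:ℝ) (1 / (β - 1))
    · rw [indicator_of_mem hx, indicator_of_mem hx]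
      ring
    · rw [indicator_of_notMem hx, indicator_of_notMem hx]
      ring
  | succ n ih =>
    unfold f
    rw [ih, ih]
    have : LR β x (n + 1) (ind 0 (1 / (β - 1))) =
        β / 2 * (LR β (β * x) n (ind 0 (1 / (β - 1))) + LR β (β * x - 1) n (ind 0 (1 / (β - 1)))) := by
      unfold LR
      rw [Function.iterate_succ_apply']
      rfl
    rw [this]
    ring

/-- **Q2**: if the Bernoulli convolution is absolutely continuous, the approximating densities converge
almost everywhere to its density. -/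
theorem final (hLEB : S_LEB) (hDEN : S_DEN) (hGRO : S_GRO) (hSAN : S_SAN) (hBAN : S_BAN)
    (β : ℝ) (hβ : 1 < β) (hβ2 : β < 2) (hac : bernoulliConv β ≪ volume) :
    ∀ᵐ x ∂(volume : Measure ℝ), Tendsto (fun n => f β n x) atTop
      (𝓝 ((bernoulliConv β).rnDeriv volume x).toReal) := by
  obtain ⟨h, hD, hh⟩ := hDEN β hβ hac
  filter_upwards [hLEB h hD.int, hh] with x hL hx
  rw [hx, ENNReal.toReal_ofReal (hD.nonneg x)]
  obtain ⟨C, hG⟩ := hGRO β h x hβ hD hL
  have hb : (0:ℝ) < 1 / (β - 1) := by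
    have : 0 < β - 1 := by linarith
    positivity
  have h1 := hSAN β x C (h x) hβ (hD.nonneg x) hG (hBAN β h x hβ hβ2 hD hL) 0 (1 / (β - 1)) hb
  have h2 := h1.const_mul (β - 1)
  have h3 : (β - 1) * (h x * (1 / (β - 1) - 0)) = h x := by
    have : β - 1 ≠ 0 := by linarith
    field_simp
    ring
  rw [h3] at h2
  refine h2.congr fun n => ?_
  rw [f_eq]

end Run7.h608.BC
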