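import Pool.Agent.Run7.h608.BC.Start

/-!
# Project BC: almost everywhere convergence of the approximating densities (MP_ddcbd8_an, Q2)

Let `1 < β < 2`, let the Bernoulli convolution be absolutely continuous with density `h`. Then
`f_n(x) → h(x)` for every Lebesgue point `x` of `h`. Notation: `(P φ)(t) = (β/2)(φ(β t) + φ(β t - 1))`,
`L x n φ = (P^n φ)(x)` is a sum of values of `φ` with positive weights (a positive functional);
`f_n(x) = (β - 1) L x n 1_[0, 1/(β-1)]`. We show `L x n φ → h(x) ∫ φ` for many functions `φ`.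

Plan. (1) For `φ = ψ * h` one has `L x n φ = ∫ β^n ψ(β^n (x - z)) h(z) dz → h(x) ∫ ψ` (IDE, APX). On the
Fourier side these are the functions `φ = T g`, `g = G H`, `H` the Fourier transform of `h`, so this gives
all test functions `g` which vanish near the zeros of `H` (DIV, MUL). (2) `P^k (T g)` corresponds to
`g · mk k`, where `mk k ξ = ∏_{j<k} (1 + e(-β^j ξ))/2`, which tends to zero for every `ξ ≠ 0` (PRD; this
uses absolute continuity again); together with the growth bound `L x n 1_[-R,R] ≤ C R` (GRO) a piece of `g`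
near a zero of `H` contributes little (LOC). There are finitely many zeros (ZER). (3) Sandwich between
band limited functions (KER, SAN).

Every piece is a `Prop` `S_X`; it is proved by a theorem `t_X : S_X` or `t_X : S_Y → S_X`.
-/

set_option autoImplicit false

open MeasureTheory Set Filter Topology
open scoped ENNReal ContDiff

namespace Run7.h608.BC

/-- `h` is the density of the Bernoulli convolution -/
structure Den (β : ℝ) (h : ℝ → ℝ) : Prop where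
  meas : Measurable h
  nonneg : ∀ x, 0 ≤ h x
  int : Integrable h
  mass : ∫ x, h x = 1
  supp : ∀ x, x ∉ Icc (0:ℝ) (1 / (β - 1)) → h x = 0
  fe : ∀ᵐ x, h x = β / 2 * (h (β * x) + h (β * x - 1))

/-- the operator `P` on complex functions -/
noncomputable def P (β : ℝ) (φ : ℝ → ℂ) (t : ℝ) : ℂ :=
  ((β / 2 : ℝ) : ℂ) * (φ (β * t) + φ (β * t - 1))

/-- the operator `P` on real functions -/
noncomputable def PR (β : ℝ) (u : ℝ → ℝ) (t : ℝ) : ℝ := β / 2 * (u (β * t) + u (β * t - 1))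

/-- `P^n φ` at the point `x` -/
noncomputable def L (β x : ℝ) (n : ℕ) (φ : ℝ → ℂ) : ℂ := (P β)^[n] φ x

/-- `P^n u` at the point `x`, real functions -/
noncomputable def LR (β x : ℝ) (n : ℕ) (u : ℝ → ℝ) : ℝ := (PR β)^[n] u x

/-- indicator function of `[p, q]` -/
noncomputable def ind (p q : ℝ) : ℝ → ℝ := (Icc p q).indicator fun _ => (1:ℝ)

/-- `x` is a Lebesgue point of `h` -/
def Leb (h : ℝ → ℝ) (x : ℝ) : Prop :=
  Tendsto (fun r : ℝ => (∫ z in Icc (x - r) (x + r), |h z - h x|) / r) (𝓝[>] 0) (𝓝 0)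

/-- `e(θ) = exp (2 π i θ)` -/
noncomputable def e (θ : ℝ) : ℂ := Complex.exp ((2 * Real.pi * θ : ℝ) * Complex.I)

/-- Fourier transform of `h` -/
noncomputable def H (h : ℝ → ℝ) (ξ : ℝ) : ℂ := ∫ y, (h y : ℂ) * e (-(ξ * y))

/-- inverse Fourier transform of `g` -/
noncomputable def T (g : ℝ → ℂ) (t : ℝ) : ℂ := ∫ ξ, g ξ * e (ξ * t)

/-- test functions on the Fourier side -/
def Tst (g : ℝ → ℂ) : Prop := ContDiff ℝ ∞ g ∧ HasCompactSupport g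

/-- the mask -/
noncomputable def m (ξ : ℝ) : ℂ := (1 + e (-ξ)) / 2

/-- its products -/
noncomputable def mk (β : ℝ) (k : ℕ) (ξ : ℝ) : ℂ := ∏ j ∈ Finset.range k, m (β ^ j * ξ)

/-- growth condition: `L x n 1_[-R,R] ≤ C R` for `R ≥ 1` -/
def Gro (β x C : ℝ) : Prop := 0 ≤ C ∧ ∀ (n : ℕ) (R : ℝ), 1 ≤ R → LR β x n (ind (-R) R) ≤ C * R

/-- the properties of the Fourier transform of the density -/
structure FT (β : ℝ) (H : ℝ → ℂ) : Prop where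
  smooth : ContDiff ℝ ∞ H
  zero : H 0 = 1
  fe : ∀ ξ, H (β * ξ) = m ξ * H ξ
  lim : Tendsto H (cocompact ℝ) (𝓝 0)

/-! ## Pieces -/

/-- LEB. `IsUnifLocDoublingMeasure.ae_tendsto_average_norm_sub` (closed balls `closedBall x r`). -/
def S_LEB : Prop := ∀ h : ℝ → ℝ, Integrable h → ∀ᵐ x, Leb h x

/-- DEN. `h = ((bernoulliConv β).rnDeriv volume).toReal`, changed to `0` outside the interval; the
functional equation from `self_similar` (two measures with densities agree on all measurable sets; change of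
variables `x ↦ x/β`, `x ↦ (1+x)/β`). -/
def S_DEN : Prop := ∀ β : ℝ, 1 < β → bernoulliConv β ≪ volume → ∃ h : ℝ → ℝ, Den β h ∧
  ∀ᵐ x, (bernoulliConv β).rnDeriv volume x = ENNReal.ofReal (h x)

/-- FOU. `H h = 𝓕 h` (Mathlib: `Real.fourier_eq'` or similar), smooth by `contDiff_fourier` (compact support,
all moments), Riemann-Lebesgue `Real.zero_at_infty_fourier`; the functional equation by substitution:
`H ξ = ∫ (β/2) (h(βx) + h(βx-1)) e(-xξ) dx = m(ξ/β) H(ξ/β)`. -/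
def S_FOU : Prop := ∀ (β : ℝ) (h : ℝ → ℝ), 1 < β → Den β h → FT β (H h)

/-- ARI. For `q = 1` and `q = 2`: `2 β^j ξ = a₁`, `4 β^j' ξ = a₂` odd, so `β^(j-j') = 2 a₁/a₂` is rational and not
`1`. Let `N ≥ 1` be minimal with `β^N = r = A/B` rational (lowest terms, `A > B ≥ 1`). All the exponents `j_q`
are congruent to `j_1` modulo `N` (the set of the `n` with `β^n ∈ ℚ` is a group); for `q = 2^t`,
`β^(j_q) ξ = r^i a₁/2` with `2^t r^i a₁` odd for some `i = i_t`. So `v₂(r) i_t = -t` for all `t`, `v₂(r) = ±1`,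
and then (`a₁ ≠ 0`, all powers) `r = 2` or `r = A/2`, `A ≥ 3` odd. If the distance of `β^j ξ` from the
nearest integer `u_j` tended to zero: case `r = A/2`, `x_i = r^i a₁/2`: `2 x_{i+1} = A x_i`, so eventually
`2 u_{i+1} = A u_i`, so `2^k` divides `u_i` for all `k`, `u_i = 0`, `x_i → 0`, contradiction.
Case `r = 2`, `N ≥ 2` as `β < 2`: `x_i = 2^i β a₁/2` : eventually `u_{i+1} = 2 u_i`, the error doubles, so it
is `0`, so `β` is rational, contradiction to the minimality of `N`. -/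
def S_ARI : Prop := ∀ β ξ : ℝ, 1 < β → β < 2 → ξ ≠ 0 →
  (∀ q : ℕ, 1 ≤ q → ∃ j a : ℤ, 2 * (q:ℝ) * β ^ j * ξ = 2 * a + 1) →
  ¬ Tendsto (fun j : ℕ => β ^ j * ξ - round (β ^ j * ξ)) atTop (𝓝 0)

/-- PRD, from ARI. `‖m ξ‖ = |cos (π ξ)|`, so `‖mk k ξ‖` decreases in `k`. If it does not tend to zero then
`∑ (1 - |cos (π β^j ξ)|) < ∞`, so `∑ ε_j² < ∞` for `ε_j = β^j ξ - round (β^j ξ)` (`1 - |cos π ε| ≥ 2 ε²` for
`|ε| ≤ 1/2`). Let `q ≥ 1`. `H (q ξ β^k) = mk (k+p) (q ξ β^(-p)) H (q ξ β^(-p))` tends to zero as `k → ∞`, the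
last factor is not zero if `p` is large. The factors with `j ≥ J` have a product `≥ 1/2` in absolute value
(`|cos (π q ε_j)| ≥ 1 - 5 q² ε_j²`), so one of the finitely many others is zero: `q β^j ξ ∈ 1/2 + ℤ`. This holds
for all `q`: contradiction to ARI. -/
def S_PRD : Prop := ∀ (β : ℝ) (H : ℝ → ℂ), 1 < β → β < 2 → FT β H → ∀ ξ : ℝ, ξ ≠ 0 →
  Tendsto (fun k : ℕ => mk β k ξ) atTop (𝓝 0)

/-- ZER. `H ξ = mk k (ξ β^(-k)) H (ξ β^(-k))`, the last factor is not zero for `|ξ| ≤ B` and `k` large, so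
`β^(j-k) ξ ∈ 1/2 + ℤ` for some `j < k`: finitely many `ξ`. -/
def S_ZER : Prop := ∀ (β : ℝ) (H : ℝ → ℂ), 1 < β → FT β H → ∀ B : ℝ, {ξ : ℝ | |ξ| ≤ B ∧ H ξ = 0}.Finite

/-- IDE. Induction on `n`; `n = 1`: substitution in the functional equation of `h`. -/
def S_IDE : Prop := ∀ (β : ℝ) (h : ℝ → ℝ), 1 < β → Den β h → ∀ ψ : ℝ → ℂ, Measurable ψ →
  (∃ M : ℝ, ∀ t, ‖ψ t‖ ≤ M) → ∀ (n : ℕ) (x : ℝ),
  L β x n (fun t => ∫ y, ψ (t - y) * (h y : ℂ)) =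
    ∫ z, ((β ^ n : ℝ) : ℂ) * ψ (β ^ n * (x - z)) * (h z : ℂ)

/-- APX. `∫ β^n ψ(β^n(x-z)) dz = ∫ ψ`; the difference is at most `∫ β^n |ψ(β^n(x-z))| |h z - h x| dz`. With
`a(r) = (1/r) ∫_{|z-x| ≤ r} |h z - h x|` (tends to zero as `r → 0`, bounded for all `r > 0` since `h` is
integrable) and `|ψ t| ≤ A/(1+t²) ≤ A ∑_i 4^(1-i) 1_{|t| ≤ 2^i}` this is at most
`4 A ∑_i 2^(-i) a(2^i β^(-n))`, which tends to zero (dominated convergence for series). -/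
def S_APX : Prop := ∀ (β : ℝ) (h : ℝ → ℝ) (x : ℝ), 1 < β → Integrable h → Leb h x →
  ∀ ψ : ℝ → ℂ, Continuous ψ → (∃ A : ℝ, ∀ t, ‖ψ t‖ ≤ A / (1 + t ^ 2)) →
  Tendsto (fun n : ℕ => ∫ z, ((β ^ n : ℝ) : ℂ) * ψ (β ^ n * (x - z)) * (h z : ℂ)) atTop
    (𝓝 ((h x : ℂ) * ∫ t, ψ t))

/-- GRO, from IDE. `1_[-R,R](t) ≤ ∫ ψ(t-y) h(y) dy` for `ψ` the indicator function of `[-R-b, R]`,
`b = 1/(β-1)`; so `LR x n 1_[-R,R] ≤ β^n ∫_{|z-x| ≤ β^(-n)(R+b)} h ≤ C' (R + b)`, because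
`(1/r) ∫_{|z-x| ≤ r} h` is bounded for `r > 0` at a Lebesgue point. -/
def S_GRO : Prop := ∀ (β : ℝ) (h : ℝ → ℝ) (x : ℝ), 1 < β → Den β h → Leb h x → ∃ C, Gro β x C

/-- TAI. `1/(1+(t/R)²) ≤ 1_{|t| ≤ R} + ∑_{i=1}^N 4^(1-i) 1_{|t| ≤ 2^i R} + 4^(-N)`, `LR x n 1 = β^n`, `N → ∞`. -/
def S_TAI : Prop := ∀ β x C : ℝ, 1 < β → Gro β x C → ∀ (n : ℕ) (R : ℝ), 1 ≤ R →
  LR β x n (fun t => 1 / (1 + (t / R) ^ 2)) ≤ 8 * C * R

/-- GEN. Induction on `k`. -/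
def S_GEN : Prop := ∀ (β : ℝ), 1 < β → ∀ g : ℝ → ℂ, Tst g → ∀ (k : ℕ) (t : ℝ),
  (P β)^[k] (T g) t = ((β ^ k : ℝ) : ℂ) * ∫ ξ, g ξ * mk β k ξ * e (ξ * (β ^ k * t))

/-- WAV. Substitute `ξ = ξ₀ + ε η`: the integral is `ε e(ξ₀ s) ∫ q(ξ₀ + ε η) χ(η) e(ε s η) dη`, and (two
partial integrations) `(1 + 4 π² s'²) |∫ F(η) e(s' η) dη| ≤ ∫ |F| + ∫ |F''|` for `F η = q(ξ₀ + ε η) χ η`,
`F'' = ε² q'' χ + 2 ε q' χ' + q χ''`, `|q(ξ₀ + εη) - q(ξ₀)| ≤ B' ε` on the support of `χ`. -/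
def S_WAV : Prop := ∀ χ : ℝ → ℂ, Tst χ → ∃ A : ℝ, 0 ≤ A ∧ ∀ q : ℝ → ℂ, ContDiff ℝ ∞ q → ∀ ξ₀ : ℝ,
  ∃ B : ℝ, 0 ≤ B ∧ ∀ ε : ℝ, 0 < ε → ε ≤ 1 → ∀ s : ℝ,
    ‖∫ ξ, q ξ * χ ((ξ - ξ₀) / ε) * e (ξ * s)‖ ≤ ε * (A * ‖q ξ₀‖ + B * ε) / (1 + (ε * s) ^ 2)

/-- LOC, from GEN, WAV, TAI. Fix a smooth `χ₁`, `1` near `0`, supported in `[-1,1]`; `A` from WAV. Choose `k`
with `8 C A ‖g ξ₀‖ ‖mk k ξ₀‖ ≤ δ/2`; `q = g · mk k`, `B` from WAV; `χ ξ = χ₁((ξ-ξ₀)/ε)`. By GEN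
`P^k (T (g χ)) t = β^k ∫ q ξ χ₁((ξ-ξ₀)/ε) e(ξ β^k t) dξ` has norm `≤ β^k ε (A ‖q ξ₀‖ + B ε)/(1 + (t/R)²)`,
`R = 1/(ε β^k) ≥ 1`; so by TAI `‖L x n (T(gχ))‖ ≤ 8 C (A ‖q ξ₀‖ + B ε)` for `n ≥ k` (`L x n = L x (n-k) ∘ P^k`).
Let `ε` be small. -/
def S_LOC : Prop := ∀ β x C : ℝ, 1 < β → Gro β x C → ∀ ξ₀ : ℝ,
  Tendsto (fun k : ℕ => mk β k ξ₀) atTop (𝓝 0) → ∀ g : ℝ → ℂ, Tst g → ∀ δ ρ : ℝ, 0 < δ → 0 < ρ →
  ∃ χ : ℝ → ℂ, ContDiff ℝ ∞ χ ∧ (∀ᶠ ξ in 𝓝 ξ₀, χ ξ = 1) ∧ (∀ ξ, ρ ≤ |ξ - ξ₀| → χ ξ = 0) ∧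
    ∃ N : ℕ, ∀ n, N ≤ n → ‖L β x n (T fun ξ => g ξ * χ ξ)‖ ≤ δ

/-- SPL, from LOC. Induction on the finite set: `g' = g (1 - χ)`, `ρ = |ξ₀|/2` (so `χ 0 = 0`), `T` and `L`
are linear. -/
def S_SPL : Prop := ∀ β x C : ℝ, 1 < β → Gro β x C → ∀ Z : Finset ℝ,
  (∀ ξ ∈ Z, ξ ≠ 0 ∧ Tendsto (fun k : ℕ => mk β k ξ) atTop (𝓝 0)) →
  ∀ g : ℝ → ℂ, Tst g → ∀ δ : ℝ, 0 < δ → ∃ g' : ℝ → ℂ, Tst g' ∧ g' 0 = g 0 ∧
    (∀ ξ, ξ ∉ tsupport g → ∀ᶠ η in 𝓝 ξ, g' η = 0) ∧ (∀ ξ ∈ Z, ∀ᶠ η in 𝓝 ξ, g' η = 0) ∧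
    ∃ N : ℕ, ∀ n, N ≤ n → ‖L β x n (T g) - L β x n (T g')‖ ≤ δ

/-- DIV. `G = g / H` (zero where `H` is zero). -/
def S_DIV : Prop := ∀ H g : ℝ → ℂ, ContDiff ℝ ∞ H → Tst g →
  (∀ ξ, H ξ = 0 → ∀ᶠ η in 𝓝 ξ, g η = 0) → ∃ G : ℝ → ℂ, Tst G ∧ ∀ ξ, g ξ = G ξ * H ξ

/-- MUL. Fubini; `T G = 𝓕⁻ G` is a Schwartz function; Fourier inversion at `0`. -/
def S_MUL : Prop := ∀ (β : ℝ) (h : ℝ → ℝ), Den β h → ∀ G : ℝ → ℂ, Tst G →
  (∀ t, T (fun ξ => G ξ * H h ξ) t = ∫ y, T G (t - y) * (h y : ℂ)) ∧ Continuous (T G) ∧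
  (∃ A : ℝ, ∀ t, ‖T G t‖ ≤ A / (1 + t ^ 2)) ∧ ∫ t, T G t = G 0

/-- KER. Let `b` be a real even test function with `∫ b² = 1`, `Θ = (T b)² = T (b * b) ≥ 0`, `∫ Θ = 1`,
`Θ_δ t = Θ(t/δ)/δ`, `[p',q'] = [p - η/2, q + η/2]` and `T g = 1_[p',q'] * Θ_δ`, i.e.
`g ξ = (∫_{p'}^{q'} e(-ξ s) ds) (b * b)(δ ξ)`. On `[p,q]`: `T g ≥ ∫_{|s| ≤ η/2} Θ_δ ≥ 1 - η` for small `δ`. If `t`
has distance `≥ η` from `[p,q]`, then `T g t ≤ ∫_{|s| ≥ d} Θ_δ ≤ A (δ/d)³`, `d` the distance of `t` from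
`[p',q']`. (Any other construction is fine.) -/
def S_KER : Prop := ∀ p q η : ℝ, p < q → 0 < η → η < 1 → ∃ g : ℝ → ℂ, Tst g ∧
  (∀ t, (T g t).im = 0 ∧ 0 ≤ (T g t).re ∧ (T g t).re ≤ 1) ∧
  (∀ t ∈ Icc p q, 1 - η ≤ (T g t).re) ∧ ‖g 0 - ((q - p : ℝ) : ℂ)‖ ≤ η ∧
  ∀ t, t ∉ Icc (p - η) (q + η) → (T g t).re ≤ η / (1 + t ^ 2)

/-- SAN, from KER, TAI. Upper bound: `(1 - η) 1_[p,q] ≤ T g`, `L x n (T g) → c g(0)`. Lower bound: KER for
`[p + η, q - η]`: `T g ≤ 1_[p,q] + η/(1+t²)`, and `LR x n (1/(1+t²)) ≤ 8 C`. -/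
def S_SAN : Prop := ∀ β x C c : ℝ, 1 < β → 0 ≤ c → Gro β x C →
  (∀ g : ℝ → ℂ, Tst g → Tendsto (fun n : ℕ => L β x n (T g)) atTop (𝓝 ((c : ℂ) * g 0))) →
  ∀ p q : ℝ, p < q → Tendsto (fun n : ℕ => LR β x n (ind p q)) atTop (𝓝 (c * (q - p)))

/-- BAN, from FOU, PRD, ZER, IDE, APX, GRO, SPL, DIV, MUL. -/
def S_BAN : Prop := ∀ (β : ℝ) (h : ℝ → ℝ) (x : ℝ), 1 < β → β < 2 → Den β h → Leb h x →
  ∀ g : ℝ → ℂ, Tst g → Tendsto (fun n : ℕ => L β x n (T g)) atTop (𝓝 ((h x : ℂ) * g 0))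

/-! ## Basic facts -/

theorem L_add (β x : ℝ) (n : ℕ) (φ ψ : ℝ → ℂ) :
    L β x n (fun t => φ t + ψ t) = L β x n φ + L β x n ψ := by
  have key : ∀ n : ℕ, ∀ φ ψ : ℝ → ℂ, (P β)^[n] (fun t => φ t + ψ t) =
      fun t => (P β)^[n] φ t + (P β)^[n] ψ t := by
    intro n
    induction n with
    | zero => intro φ ψ; rfl
    | succ n ih =>
      intro φ ψ
      rw [Function.iterate_succ_apply', ih φ ψ, Function.iterate_succ_apply',
        Function.iterate_succ_apply']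
      funext t
      unfold P
      ring
  exact congrFun (key n φ ψ) x

theorem L_smul (β x : ℝ) (n : ℕ) (c : ℂ) (φ : ℝ → ℂ) :
    L β x n (fun t => c * φ t) = c * L β x n φ := by
  have key : ∀ n : ℕ, ∀ φ : ℝ → ℂ, (P β)^[n] (fun t => c * φ t) =
      fun t => c * (P β)^[n] φ t := by
    intro n
    induction n with
    | zero => intro φ; rfl
    | succ n ih =>
      intro φ
      rw [Function.iterate_succ_apply', ih φ, Function.iterate_succ_apply']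
      funext t
      unfold P
      ring
  exact congrFun (key n φ) x

theorem L_comp (β x : ℝ) (n k : ℕ) (φ : ℝ → ℂ) : L β x (n + k) φ = L β x n ((P β)^[k] φ) := by
  unfold L
  rw [Function.iterate_add_apply]

theorem LR_add (β x : ℝ) (n : ℕ) (u v : ℝ → ℝ) :
    LR β x n (fun t => u t + v t) = LR β x n u + LR β x n v := by
  have key : ∀ n : ℕ, ∀ u v : ℝ → ℝ, (PR β)^[n] (fun t => u t + v t) =
      fun t => (PR β)^[n] u t + (PR β)^[n] v t := by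
    intro n
    induction n with
    | zero => intro φ ψ; rfl
    | succ n ih =>
      intro φ ψ
      rw [Function.iterate_succ_apply', ih φ ψ, Function.iterate_succ_apply',
        Function.iterate_succ_apply']
      funext t
      unfold PR
      ring
  exact congrFun (key n u v) x

theorem LR_smul (β x : ℝ) (n : ℕ) (c : ℝ) (u : ℝ → ℝ) :
    LR β x n (fun t => c * u t) = c * LR β x n u := by
  have key : ∀ n : ℕ, ∀ u : ℝ → ℝ, (PR β)^[n] (fun t => c * u t) =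
      fun t => c * (PR β)^[n] u t := by
    intro n
    induction n with
    | zero => intro φ; rfl
    | succ n ih =>
      intro φ
      rw [Function.iterate_succ_apply', ih φ, Function.iterate_succ_apply']
      funext t
      unfold PR
      ring
  exact congrFun (key n u) x

theorem LR_mono (β x : ℝ) (hβ : 1 < β) (n : ℕ) (u v : ℝ → ℝ) (h : ∀ t, u t ≤ v t) :
    LR β x n u ≤ LR β x n v := by
  have key : ∀ n : ℕ, ∀ t, (PR β)^[n] u t ≤ (PR β)^[n] v t := by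
    intro n
    induction n with
    | zero => exact h
    | succ n ih =>
      intro t
      rw [Function.iterate_succ_apply', Function.iterate_succ_apply']
      unfold PR
      exact mul_le_mul_of_nonneg_left (add_le_add (ih _) (ih _)) (by linarith)
  exact key n x

theorem norm_L_le (β x : ℝ) (hβ : 1 < β) (n : ℕ) (φ : ℝ → ℂ) (u : ℝ → ℝ)
    (h : ∀ t, ‖φ t‖ ≤ u t) : ‖L β x n φ‖ ≤ LR β x n u := by
  have key : ∀ n : ℕ, ∀ t, ‖(P β)^[n] φ t‖ ≤ (PR β)^[n] u t := by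
    intro n
    induction n with
    | zero => exact h
    | succ n ih =>
      intro t
      rw [Function.iterate_succ_apply', Function.iterate_succ_apply']
      unfold P PR
      rw [norm_mul, Complex.norm_real, Real.norm_eq_abs, abs_of_pos (by linarith : 0 < β / 2)]
      exact mul_le_mul_of_nonneg_left ((norm_add_le _ _).trans (add_le_add (ih _) (ih _)))
        (by linarith)
  exact key n x

theorem L_ofReal (β x : ℝ) (n : ℕ) (u : ℝ → ℝ) :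
    L β x n (fun t => (u t : ℂ)) = (LR β x n u : ℂ) := by
  have key : ∀ n : ℕ, (P β)^[n] (fun t => (u t : ℂ)) = fun t => (((PR β)^[n] u t : ℝ) : ℂ) := by
    intro n
    induction n with
    | zero => rfl
    | succ n ih =>
      rw [Function.iterate_succ_apply', ih, Function.iterate_succ_apply']
      funext t
      show ((β / 2 : ℝ) : ℂ) * ((((PR β)^[n] u (β * t) : ℝ) : ℂ) + (((PR β)^[n] u (β * t - 1) : ℝ) : ℂ))
        = ((β / 2 * ((PR β)^[n] u (β * t) + (PR β)^[n] u (β * t - 1)) : ℝ) : ℂ)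
      push_cast
      ring
  exact congrFun (key n) x

theorem LR_one (β x : ℝ) (n : ℕ) : LR β x n (fun _ => 1) = β ^ n := by
  have key : ∀ n : ℕ, (PR β)^[n] (fun _ => (1:ℝ)) = fun _ => β ^ n := by
    intro n
    induction n with
    | zero => rfl
    | succ n ih =>
      rw [Function.iterate_succ_apply', ih]
      funext t
      unfold PR
      rw [pow_succ]
      ring
  exact congrFun (key n) x

end Run7.h608.BC
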